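import Pool.Agent.Helper99.GL.FSpec

/-!
Swarm `GL` part F13 (Koenigs linearisation and the invariant vector field of a contraction).
-/

set_option autoImplicit false

open Metric Set Filter Topology

namespace Pool.GL.Helper92

/-- second order Taylor estimate with a good radius -/
theorem taylor2 (f : ℂ → ℂ) (z₀ : ℂ) (r : ℝ) (p : ℂ) (hd : DifferentiableOn ℂ f (ball z₀ r))
    (hp : p ∈ ball z₀ r) (hfp : f p = p) (h0 : deriv f p ≠ 0) (h1 : ‖deriv f p‖ < 1) :
    ∃ s K q : ℝ, 0 < s ∧ 0 ≤ K ∧ 0 ≤ q ∧ q < 1 ∧ q ^ 2 < ‖deriv f p‖ ∧ ball p s ⊆ ball z₀ r ∧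
      (∀ z ∈ ball p s, ‖f z - p - deriv f p * (z - p)‖ ≤ K * ‖z - p‖ ^ 2) ∧
      (∀ z ∈ ball p s, ‖f z - p‖ ≤ q * ‖z - p‖) := by
  have hnhds : ball z₀ r ∈ 𝓝 p := isOpen_ball.mem_nhds hp
  have hd1 : DifferentiableOn ℂ (dslope f p) (ball z₀ r) :=
    (Complex.differentiableOn_dslope hnhds).2 hd
  have hd2 : DifferentiableOn ℂ (dslope (dslope f p) p) (ball z₀ r) :=
    (Complex.differentiableOn_dslope hnhds).2 hd1
  have hc : ContinuousAt (dslope (dslope f p) p) p :=
    (hd2.differentiableAt hnhds).continuousAt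
  obtain ⟨K, hK⟩ : ∃ K : ℝ, K = ‖dslope (dslope f p) p p‖ + 1 := ⟨_, rfl⟩
  have hK0 : 0 < K := by rw [hK]; positivity
  have hb : ∀ᶠ z in 𝓝 p, ‖dslope (dslope f p) p z‖ < K :=
    hc.norm.eventually_lt continuousAt_const (by rw [hK]; simp)
  obtain ⟨s1, hs1, hball1⟩ := Metric.eventually_nhds_iff_ball.1 (hb.and (eventually_mem_nhds_iff.2 hnhds |>.mono fun z hz => mem_of_mem_nhds hz))
  set μ := deriv f p with hμ
  have hμ0 : 0 < ‖μ‖ := norm_pos_iff.2 h0
  -- choose q between
  have hlt : ‖μ‖ < Real.sqrt ‖μ‖ := by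
    rw [Real.lt_sqrt hμ0.le]
    nlinarith
  have hsq : Real.sqrt ‖μ‖ < 1 := by
    rw [Real.sqrt_lt' one_pos]; simpa using h1
  obtain ⟨q, hq1, hq2⟩ := exists_between hlt
  obtain ⟨s, hs⟩ : ∃ s : ℝ, s = min s1 ((q - ‖μ‖) / K) := ⟨_, rfl⟩
  have hs0 : 0 < s := by rw [hs]; exact lt_min hs1 (div_pos (by linarith) hK0)
  have hss1 : s ≤ s1 := by rw [hs]; exact min_le_left _ _
  have hsK : K * s ≤ q - ‖μ‖ := by
    have : s ≤ (q - ‖μ‖) / K := by rw [hs]; exact min_le_right _ _
    rw [le_div_iff₀ hK0] at this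
    linarith
  have hid : ∀ z : ℂ, f z - p - μ * (z - p) = (z - p) ^ 2 * dslope (dslope f p) p z := by
    intro z
    have e1 : (z - p) * dslope f p z = f z - p := by
      have := sub_smul_dslope f p z
      rw [smul_eq_mul, hfp] at this
      exact this
    have e2 : (z - p) * dslope (dslope f p) p z = dslope f p z - μ := by
      have := sub_smul_dslope (dslope f p) p z
      rw [smul_eq_mul, dslope_same] at this
      exact this
    calc f z - p - μ * (z - p) = (z - p) * (dslope f p z - μ) := by rw [← e1]; ring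
      _ = (z - p) ^ 2 * dslope (dslope f p) p z := by rw [← e2]; ring
  have hT : ∀ z ∈ ball p s, ‖f z - p - μ * (z - p)‖ ≤ K * ‖z - p‖ ^ 2 := by
    intro z hz
    rw [hid, norm_mul, norm_pow, mul_comm]
    apply mul_le_mul_of_nonneg_right _ (by positivity)
    exact (hball1 z (ball_subset_ball hss1 hz)).1.le
  refine ⟨s, K, q, hs0, hK0.le, by linarith, by linarith, ?_, ?_, hT, ?_⟩
  · calc q ^ 2 < (Real.sqrt ‖μ‖) ^ 2 := pow_lt_pow_left₀ hq2 (by linarith) two_ne_zero
      _ = ‖μ‖ := Real.sq_sqrt hμ0.le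
  · intro z hz
    exact (hball1 z (ball_subset_ball hss1 hz)).2
  · intro z hz
    have h2 := hT z hz
    have hz' : ‖z - p‖ < s := by simpa [dist_eq_norm] using hz
    have h3 : ‖f z - p‖ ≤ ‖f z - p - μ * (z - p)‖ + ‖μ * (z - p)‖ := by
      have e : f z - p = (f z - p - μ * (z - p)) + μ * (z - p) := by ring
      calc ‖f z - p‖ = ‖(f z - p - μ * (z - p)) + μ * (z - p)‖ := by rw [← e]
        _ ≤ _ := norm_add_le _ _
    rw [norm_mul] at h3
    have h4 : K * ‖z - p‖ ^ 2 ≤ (q - ‖μ‖) * ‖z - p‖ := by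
      have : K * ‖z - p‖ ≤ q - ‖μ‖ := le_trans (mul_le_mul_of_nonneg_left hz'.le hK0.le) hsK
      calc K * ‖z - p‖ ^ 2 = (K * ‖z - p‖) * ‖z - p‖ := by ring
        _ ≤ _ := mul_le_mul_of_nonneg_right this (norm_nonneg _)
    linarith

/-- Koenigs function of a contraction germ -/
theorem koenigs (f : ℂ → ℂ) (hf : AnalyticAt ℂ f 0) (hf0 : f 0 = 0) (h0 : deriv f 0 ≠ 0)
    (h1 : ‖deriv f 0‖ < 1) :
    ∃ κ : ℂ → ℂ, ∃ s q : ℝ, 0 < s ∧ 0 ≤ q ∧ q < 1 ∧ AnalyticAt ℂ κ 0 ∧ κ 0 = 0 ∧ deriv κ 0 = 1 ∧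
      ∀ z ∈ ball (0 : ℂ) s, ‖f z‖ ≤ q * ‖z‖ ∧ κ (f z) = deriv f 0 * κ z := by
  obtain ⟨r, hr, hdr⟩ := Metric.eventually_nhds_iff_ball.1 hf.eventually_analyticAt
  have hd : DifferentiableOn ℂ f (ball 0 r) := fun z hz =>
    (hdr z hz).differentiableAt.differentiableWithinAt
  obtain ⟨s, K, q, hs, hK, hq0, hq1, hqμ, hsub, hT, hq⟩ :=
    taylor2 f 0 r 0 hd (mem_ball_self hr) hf0 h0 h1
  set μ := deriv f 0 with hμ
  have hμ0 : 0 < ‖μ‖ := norm_pos_iff.2 h0
  have hds : DifferentiableOn ℂ f (ball 0 s) := hd.mono hsub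
  have hmap : MapsTo f (ball 0 s) (ball 0 s) := by
    intro z hz
    have h2 := hq z hz
    have hz' : ‖z - 0‖ < s := by simpa [dist_eq_norm] using hz
    have : ‖f z - 0‖ < s := by
      have := norm_nonneg (z - 0)
      nlinarith
    simpa [dist_eq_norm] using this
  have hmapn : ∀ n : ℕ, MapsTo f^[n] (ball 0 s) (ball 0 s) := fun n => hmap.iterate n
  have hiter : ∀ n : ℕ, ∀ z ∈ ball (0 : ℂ) s, ‖f^[n] z - 0‖ ≤ q ^ n * ‖z - 0‖ := by
    intro n
    induction n with
    | zero => intro z _; simp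
    | succ n ih =>
      intro z hz
      rw [Function.iterate_succ_apply']
      refine (hq _ (hmapn n hz)).trans ?_
      calc q * ‖f^[n] z - 0‖ ≤ q * (q ^ n * ‖z - 0‖) := mul_le_mul_of_nonneg_left (ih z hz) hq0
        _ = q ^ (n + 1) * ‖z - 0‖ := by ring
  have hditer : ∀ n : ℕ, DifferentiableOn ℂ f^[n] (ball 0 s) := by
    intro n
    induction n with
    | zero => exact differentiableOn_id
    | succ n ih =>
      rw [Function.iterate_succ']
      exact hds.comp ih (hmapn n)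
  -- the terms of the series
  set D : ℕ → ℂ → ℂ := fun n z => (μ⁻¹) ^ (n + 1) * (f (f^[n] z) - 0 - μ * (f^[n] z - 0)) with hD
  have hDdiff : ∀ n, DifferentiableOn ℂ (D n) (ball 0 s) := by
    intro n
    have h2 : DifferentiableOn ℂ (fun z => f (f^[n] z)) (ball 0 s) := hds.comp (hditer n) (hmapn n)
    exact ((h2.sub_const 0).sub (((hditer n).sub_const 0).const_mul μ)).const_mul _
  set θ : ℝ := q ^ 2 / ‖μ‖ with hθ
  have hθ0 : 0 ≤ θ := by positivity
  have hθ1 : θ < 1 := by rw [hθ, div_lt_one hμ0]; exact hqμ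
  have hDb : ∀ n, ∀ z ∈ ball (0 : ℂ) s, ‖D n z‖ ≤ (K / ‖μ‖ * ‖z - 0‖ ^ 2) * θ ^ n := by
    intro n z hz
    rw [hD]
    simp only
    rw [norm_mul, norm_pow, norm_inv]
    have h2 := hT _ (hmapn n hz)
    have h3 : ‖f^[n] z - 0‖ ^ 2 ≤ (q ^ n * ‖z - 0‖) ^ 2 :=
      pow_le_pow_left₀ (norm_nonneg _) (hiter n z hz) 2
    calc ‖μ‖⁻¹ ^ (n + 1) * ‖f (f^[n] z) - 0 - μ * (f^[n] z - 0)‖
        ≤ ‖μ‖⁻¹ ^ (n + 1) * (K * (q ^ n * ‖z - 0‖) ^ 2) := by
          apply mul_le_mul_of_nonneg_left _ (by positivity)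
          exact h2.trans (mul_le_mul_of_nonneg_left h3 hK)
      _ = (K / ‖μ‖ * ‖z - 0‖ ^ 2) * θ ^ n := by
          rw [hθ, div_pow, pow_succ, inv_pow]
          field_simp
          ring
  have hgeo : HasSum (fun n : ℕ => θ ^ n) (1 - θ)⁻¹ := hasSum_geometric_of_lt_one hθ0 hθ1
  have hEdiff : DifferentiableOn ℂ (fun z => ∑' n, D n z) (ball 0 s) := by
    apply Complex.differentiableOn_tsum_of_summable_norm (u := fun n => (K / ‖μ‖ * s ^ 2) * θ ^ n)
      (hgeo.summable.mul_left _) hDdiff isOpen_ball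
    intro n z hz
    refine (hDb n z hz).trans ?_
    have hz' : ‖z - 0‖ < s := by simpa [dist_eq_norm] using hz
    gcongr
  have hEb : ∀ z ∈ ball (0 : ℂ) s, ‖∑' n, D n z‖ ≤ (K / ‖μ‖ * (1 - θ)⁻¹) * ‖z - 0‖ ^ 2 := by
    intro z hz
    have := tsum_of_norm_bounded (hgeo.mul_left (K / ‖μ‖ * ‖z - 0‖ ^ 2)) (fun n => hDb n z hz)
    refine this.trans (le_of_eq ?_)
    ring
  have hDsum : ∀ z ∈ ball (0 : ℂ) s, Summable (fun n => D n z) := by
    intro z hz
    exact Summable.of_norm_bounded (hgeo.summable.mul_left _) (fun n => hDb n z hz)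
  set φ : ℂ → ℂ := fun z => (z - 0) + ∑' n, D n z with hφ
  have hφdiff : DifferentiableOn ℂ φ (ball 0 s) := (differentiableOn_id.sub_const 0).add hEdiff
  have hps : (0 : ℂ) ∈ ball (0 : ℂ) s := mem_ball_self hs
  have hφ' : HasDerivAt φ 1 0 := by
    have hE : HasDerivAt (fun z => ∑' n, D n z) 0 0 := by
      have hO : (fun z => ∑' n, D n z) =O[𝓝 0] fun z => ‖z - 0‖ ^ 2 := by
        apply Asymptotics.IsBigO.of_bound (K / ‖μ‖ * (1 - θ)⁻¹)
        filter_upwards [ball_mem_nhds (0 : ℂ) hs] with z hz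
        refine (hEb z hz).trans (le_of_eq ?_)
        rw [Real.norm_eq_abs, abs_of_nonneg (by positivity)]
      have h3 := Asymptotics.IsBigO.hasFDerivAt (𝕜 := ℂ) hO (by norm_num)
      have h4 := h3.hasDerivAt
      simpa using h4
    have h2 : HasDerivAt (fun z : ℂ => z - 0) 1 0 := (hasDerivAt_id (0 : ℂ)).sub_const 0
    have h3 := h2.add hE
    rw [add_zero] at h3
    exact h3
  have hφp : φ 0 = 0 := by
    have h2 := hEb 0 hps
    simp only [sub_self, norm_zero] at h2
    have h3 : ∑' n, D n 0 = 0 := by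
      rw [← norm_le_zero_iff]
      simpa using h2
    rw [hφ]
    simp only
    rw [h3, sub_self, add_zero]
  have hfun : ∀ z ∈ ball (0 : ℂ) s, φ (f z) = μ * φ z := by
    intro z hz
    have h2 : ∀ n, D n (f z) = μ * D (n + 1) z := by
      intro n
      rw [hD]
      simp only
      rw [← Function.iterate_succ_apply]
      have e : (μ⁻¹) ^ (n + 1) = μ * (μ⁻¹) ^ (n + 1 + 1) := by
        rw [pow_succ (μ⁻¹) (n + 1)]
        field_simp
      rw [e]
      ring
    have h3 : ∑' n, D n z = D 0 z + ∑' n, D (n + 1) z := (hDsum z hz).tsum_eq_zero_add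
    have h4 : ∑' n, D n (f z) = μ * ∑' n, D (n + 1) z := by
      rw [← tsum_mul_left]
      exact tsum_congr h2
    have h5 : D 0 z = μ⁻¹ * (f z - 0 - μ * (z - 0)) := by
      rw [hD]; simp
    rw [hφ]
    simp only
    rw [h4, h3, h5]
    field_simp
    ring
  refine ⟨φ, s, q, hs, hq0, hq1, hφdiff.analyticAt (ball_mem_nhds _ hs), hφp, hφ'.deriv, ?_⟩
  intro z hz
  refine ⟨?_, hfun z hz⟩
  have := hq z hz
  simpa using this

/-- F13 -/
theorem KOE : S_KOE := by
  intro c hc hc0 h0 h1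
  obtain ⟨κ, s, q, hs, hq0, hq1, hκ, hκ0, hκ1, hcs⟩ := koenigs c hc hc0 h0 h1
  set μ := deriv c 0 with hμ
  have hκd : HasDerivAt κ 1 0 := by
    have := hκ.differentiableAt.hasDerivAt
    rwa [hκ1] at this
  have hκ'an : AnalyticAt ℂ (deriv κ) 0 := hκ.deriv
  have hκ'ne : deriv κ 0 ≠ 0 := by rw [hκ1]; exact one_ne_zero
  refine ⟨fun z => κ z / deriv κ z, hκ.div hκ'an hκ'ne, by simp [hκ0], ?_, ?_⟩
  · have h2 := hκd.div hκ'an.differentiableAt.hasDerivAt hκ'ne
    have h3 := h2.deriv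
    simp only [hκ1, hκ0] at h3
    have h4 : deriv (κ / deriv κ) 0 = 1 := by rw [h3]; ring
    exact h4
  · intro h hh hh0 hh1 hcomm
    -- the ratio κ(h w)/κ(w) tends to h'(0)
    have hhd : HasDerivAt h (deriv h 0) 0 := hh.differentiableAt.hasDerivAt
    have hκh : HasDerivAt (fun z => κ (h z)) (deriv h 0) 0 := by
      have hκd' : HasDerivAt κ 1 (h 0) := by rw [hh0]; exact hκd
      have := hκd'.comp (0 : ℂ) hhd
      rwa [one_mul] at this
    have hlim : Tendsto (fun w => κ (h w) / κ w) (𝓝[≠] (0 : ℂ)) (𝓝 (deriv h 0)) := by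
      have e1 := hasDerivAt_iff_tendsto_slope.1 hκh
      have e2 := hasDerivAt_iff_tendsto_slope.1 hκd
      have e3 := e1.div e2 one_ne_zero
      rw [div_one] at e3
      refine e3.congr' ?_
      filter_upwards [self_mem_nhdsWithin] with w hw
      have hw' : w ≠ 0 := hw
      simp only [Pi.div_apply, slope_def_field, hh0, hκ0, sub_zero]
      by_cases hk : κ w = 0
      · simp [hk]
      · field_simp
    have hκne : ∀ᶠ z in 𝓝 (0 : ℂ), z ≠ 0 → κ z ≠ 0 := by
      have := hκd.eventually_ne (c := 0) one_ne_zero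
      rw [eventually_nhdsWithin_iff] at this
      exact this
    have hhball : ∀ᶠ z in 𝓝 (0 : ℂ), h z ∈ ball (0 : ℂ) s := by
      apply hh.continuousAt.eventually
      rw [hh0]
      exact ball_mem_nhds _ hs
    obtain ⟨t₁, ht₁, hball⟩ := Metric.eventually_nhds_iff_ball.1 ((hcomm.and hκne).and hhball)
    obtain ⟨t, ht⟩ : ∃ t : ℝ, t = min t₁ s := ⟨_, rfl⟩
    have ht0 : 0 < t := by rw [ht]; exact lt_min ht₁ hs
    have htt₁ : t ≤ t₁ := by rw [ht]; exact min_le_left _ _
    have hts : t ≤ s := by rw [ht]; exact min_le_right _ _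
    have hmapt : ∀ z ∈ ball (0 : ℂ) t, c z ∈ ball (0 : ℂ) t := by
      intro z hz
      have h2 := (hcs z (ball_subset_ball hts hz)).1
      have hz' : ‖z‖ < t := by simpa using hz
      have : ‖c z‖ < t := by
        have := norm_nonneg z
        nlinarith
      simpa using this
    have hmapn : ∀ n : ℕ, ∀ z ∈ ball (0 : ℂ) t, c^[n] z ∈ ball (0 : ℂ) t := by
      intro n
      induction n with
      | zero => intro z hz; simpa using hz
      | succ n ih =>
        intro z hz
        rw [Function.iterate_succ_apply']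
        exact hmapt _ (ih z hz)
    have hnorm : ∀ n : ℕ, ∀ z ∈ ball (0 : ℂ) t, ‖c^[n] z‖ ≤ q ^ n * ‖z‖ := by
      intro n
      induction n with
      | zero => intro z _; simp
      | succ n ih =>
        intro z hz
        rw [Function.iterate_succ_apply']
        refine ((hcs _ (ball_subset_ball hts (hmapn n z hz))).1).trans ?_
        calc q * ‖c^[n] z‖ ≤ q * (q ^ n * ‖z‖) := mul_le_mul_of_nonneg_left (ih z hz) hq0
          _ = q ^ (n + 1) * ‖z‖ := by ring
    have hκn : ∀ n : ℕ, ∀ z ∈ ball (0 : ℂ) t, κ (c^[n] z) = μ ^ n * κ z := by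
      intro n
      induction n with
      | zero => intro z _; simp
      | succ n ih =>
        intro z hz
        rw [Function.iterate_succ_apply', (hcs _ (ball_subset_ball hts (hmapn n z hz))).2,
          ih z hz]
        ring
    have hκhn : ∀ n : ℕ, ∀ z ∈ ball (0 : ℂ) t, κ (h (c^[n] z)) = μ ^ n * κ (h z) := by
      intro n
      induction n with
      | zero => intro z _; simp
      | succ n ih =>
        intro z hz
        have hz2 := ball_subset_ball htt₁ (hmapn n z hz)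
        rw [Function.iterate_succ_apply', (hball _ hz2).1.1, (hcs _ (hball _ hz2).2).2, ih z hz]
        ring
    have hkey : ∀ z ∈ ball (0 : ℂ) t, κ (h z) = deriv h 0 * κ z := by
      intro z hz
      by_cases hz0 : z = 0
      · rw [hz0, hh0, hκ0, mul_zero]
      have hκz : κ z ≠ 0 := (hball z (ball_subset_ball htt₁ hz)).1.2 hz0
      have hseq : Tendsto (fun n : ℕ => c^[n] z) atTop (𝓝[≠] (0 : ℂ)) := by
        rw [tendsto_nhdsWithin_iff]
        constructor
        · rw [tendsto_zero_iff_norm_tendsto_zero]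
          apply squeeze_zero (fun n => norm_nonneg _) (fun n => hnorm n z hz)
          have := (tendsto_pow_atTop_nhds_zero_of_lt_one hq0 hq1).mul_const ‖z‖
          rwa [zero_mul] at this
        · apply Eventually.of_forall
          intro n hn
          have hn' : c^[n] z = 0 := hn
          have h2 := hκn n z hz
          rw [hn', hκ0] at h2
          exact (mul_ne_zero (pow_ne_zero n h0) hκz) h2.symm
      have h2 := hlim.comp hseq
      have h3 : ((fun w => κ (h w) / κ w) ∘ fun n : ℕ => c^[n] z) = fun _ => κ (h z) / κ z := by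
        funext n
        simp only [Function.comp_apply]
        rw [hκn n z hz, hκhn n z hz]
        rw [mul_div_mul_left _ _ (pow_ne_zero n h0)]
      rw [h3] at h2
      have h4 := tendsto_nhds_unique h2 tendsto_const_nhds
      rw [h4]
      field_simp
    -- differentiate
    have hκ'h : ∀ᶠ z in 𝓝 (0 : ℂ), deriv κ (h z) ≠ 0 := by
      have hcont : ContinuousAt (fun z => deriv κ (h z)) 0 := by
        have hc1 : ContinuousAt (deriv κ) (h 0) := by rw [hh0]; exact hκ'an.continuousAt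
        exact ContinuousAt.comp (f := h) (g := deriv κ) hc1 hh.continuousAt
      apply hcont.eventually_ne
      rw [hh0]; exact hκ'ne
    have hκ'z : ∀ᶠ z in 𝓝 (0 : ℂ), deriv κ z ≠ 0 := hκ'an.continuousAt.eventually_ne hκ'ne
    have hκan : ∀ᶠ z in 𝓝 (0 : ℂ), AnalyticAt ℂ κ z := hκ.eventually_analyticAt
    have hhan : ∀ᶠ z in 𝓝 (0 : ℂ), AnalyticAt ℂ h z := hh.eventually_analyticAt
    have hκanh : ∀ᶠ z in 𝓝 (0 : ℂ), AnalyticAt ℂ κ (h z) := by
      have : Tendsto h (𝓝 0) (𝓝 0) := by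
        have := hh.continuousAt.tendsto
        rwa [hh0] at this
      exact this.eventually hκan
    filter_upwards [hκ'h, hκ'z, hκan, hhan, hκanh, ball_mem_nhds (0 : ℂ) ht0] with
      z a1 a2 a3 a4 a5 a6
    have hd1 : HasDerivAt (fun z => κ (h z)) (deriv κ (h z) * deriv h z) z :=
      a5.differentiableAt.hasDerivAt.comp z a4.differentiableAt.hasDerivAt
    have hd2 : HasDerivAt (fun z => κ (h z)) (deriv h 0 * deriv κ z) z := by
      have := (a3.differentiableAt.hasDerivAt).const_mul (deriv h 0)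
      refine this.congr_of_eventuallyEq ?_
      filter_upwards [isOpen_ball.mem_nhds a6] with w hw
      exact hkey w hw
    have hd3 := hd1.unique hd2
    change κ (h z) / deriv κ (h z) = deriv h z * (κ z / deriv κ z)
    rw [hkey z a6]
    have : deriv h 0 * κ z * deriv κ z = deriv h z * κ z * deriv κ (h z) := by
      calc deriv h 0 * κ z * deriv κ z = (deriv h 0 * deriv κ z) * κ z := by ring
        _ = (deriv κ (h z) * deriv h z) * κ z := by rw [hd3]
        _ = _ := by ring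
    rw [mul_div_assoc', div_eq_div_iff a1 a2]
    exact this

end Pool.GL.Helper92
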