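import Pool.Agent.Helper99.GL.FSpec

/-!
Swarm `GL` part F21: two loops with the same number of steps and the same small multiplier.
-/

set_option autoImplicit false

open Metric Set Filter Topology

namespace Pool.GL.Helper92

theorem deriv_comp0 (f g : ℂ → ℂ) (hf : AnalyticAt ℂ f 0) (hg : AnalyticAt ℂ g 0)
    (hg0 : g 0 = 0) : deriv (fun z => f (g z)) 0 = deriv f 0 * deriv g 0 := by
  have h1 : HasDerivAt f (deriv f 0) (g 0) := by
    rw [hg0]; exact hf.differentiableAt.hasDerivAt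
  exact (h1.comp (0 : ℂ) hg.differentiableAt.hasDerivAt).deriv

/-- F21 -/
theorem TWO (hNC : S_NC) (hH1 : S_HOL1) (hH2 : S_HOL2) : S_TWO := by
  intro F hF
  obtain ⟨s₀, n, m, c, g, hc, hg, hlt, hne⟩ := hNC F hF
  obtain ⟨ca, c0, cd, c', hc', -, hcc'⟩ := hH1 _ n s₀ s₀ c hc
  obtain ⟨ga, g0, gd, g', hg', -, hgg'⟩ := hH1 _ m s₀ s₀ g hg
  -- powers of c
  have hpow : ∀ N : ℕ, ∃ k : ℂ → ℂ, F.inf.Hol ((N + 1) * n) s₀ s₀ k ∧
      deriv k 0 = deriv c 0 ^ (N + 1) := by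
    intro N
    induction N with
    | zero => exact ⟨c, by simpa using hc, by simp⟩
    | succ N ih =>
      obtain ⟨k, hk, hkd⟩ := ih
      refine ⟨fun z => c (k z), ?_, ?_⟩
      · have := hH2 _ _ _ _ _ _ _ _ hk hc
        have e : (N + 1 + 1) * n = (N + 1) * n + n := by ring
        rw [e]; exact this
      · obtain ⟨ka, k0, -, -⟩ := hH1 _ _ _ _ _ hk
        rw [deriv_comp0 c k ca ka k0, hkd]
        ring
  obtain ⟨N, hN⟩ : ∃ N : ℕ, ‖deriv c 0‖ ^ N < 1 / 100 / (‖deriv g 0‖ + 1) :=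
    exists_pow_lt_of_lt_one (by positivity) hlt
  obtain ⟨k, hk, hkd⟩ := hpow N
  obtain ⟨ka, k0, kd, k', hk', -, hkk'⟩ := hH1 _ _ _ _ _ hk
  obtain ⟨k'a, k'0, -, -⟩ := hH1 _ _ _ _ _ hk'
  -- the two loops
  have hck : F.inf.Hol ((N + 1) * n + n) s₀ s₀ (fun z => c (k z)) := hH2 _ _ _ _ _ _ _ _ hk hc
  have hgk : F.inf.Hol ((N + 1) * n + m) s₀ s₀ (fun z => g (k z)) := hH2 _ _ _ _ _ _ _ _ hk hg
  have hT : F.inf.Hol ((N + 1) * n + n + m) s₀ s₀ (fun z => g (c (k z))) :=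
    hH2 _ _ _ _ _ _ _ _ hck hg
  have hFa : F.inf.Hol ((N + 1) * n + m + n) s₀ s₀ (fun z => c (g (k z))) :=
    hH2 _ _ _ _ _ _ _ _ hgk hc
  have e : (N + 1) * n + m + n = (N + 1) * n + n + m := by ring
  rw [e] at hFa
  obtain ⟨cka, ck0, -, -⟩ := hH1 _ _ _ _ _ hck
  obtain ⟨gka, gk0, -, -⟩ := hH1 _ _ _ _ _ hgk
  have dT : deriv (fun z => g (c (k z))) 0 = deriv g 0 * deriv c 0 ^ (N + 2) := by
    rw [deriv_comp0 g (fun z => c (k z)) ga cka ck0, deriv_comp0 c k ca ka k0, hkd]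
    ring
  have dF : deriv (fun z => c (g (k z))) 0 = deriv g 0 * deriv c 0 ^ (N + 2) := by
    rw [deriv_comp0 c (fun z => g (k z)) ca gka gk0, deriv_comp0 g k ga ka k0, hkd]
    ring
  refine ⟨s₀, (N + 1) * n + n + m, fun i => if i then (fun z => g (c (k z))) else
    (fun z => c (g (k z))), deriv g 0 * deriv c 0 ^ (N + 2), ?_, ?_, ?_, ?_, ?_⟩
  · intro i
    cases i
    · simpa using hFa
    · simpa using hT
  · intro i
    cases i
    · simpa using dF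
    · simpa using dT
  · rw [norm_mul, norm_pow, pow_add]
    have h1 : ‖deriv c 0‖ ^ 2 ≤ 1 := pow_le_one₀ (norm_nonneg _) hlt.le
    have h2 : ‖deriv c 0‖ ^ N ≤ 1 / 100 / (‖deriv g 0‖ + 1) := hN.le
    have h3 : 0 ≤ ‖deriv c 0‖ ^ N := by positivity
    have h4 : 0 ≤ ‖deriv g 0‖ := norm_nonneg _
    calc ‖deriv g 0‖ * (‖deriv c 0‖ ^ N * ‖deriv c 0‖ ^ 2)
        ≤ ‖deriv g 0‖ * (‖deriv c 0‖ ^ N * 1) := by gcongr
      _ ≤ (‖deriv g 0‖ + 1) * (1 / 100 / (‖deriv g 0‖ + 1)) := by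
          rw [mul_one]
          apply mul_le_mul (by linarith) h2 h3 (by positivity)
      _ = 1 / 100 := by field_simp
  · exact mul_ne_zero gd (pow_ne_zero _ cd)
  · intro hcon
    apply hne
    have hk'lim : Tendsto k' (𝓝 0) (𝓝 0) := by
      have := k'a.continuousAt.tendsto
      rwa [k'0] at this
    have hcon' := hk'lim.eventually hcon
    filter_upwards [hcon', hkk'] with w hw hw2
    simp only [if_true, Bool.false_eq_true, if_false] at hw
    rw [hw2] at hw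
    exact hw

end Pool.GL.Helper92
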