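import Pool.Agent.Helper99.GL.FSpec

/-!
Swarm `GL` part F31: algebra of the reduction to an affine field.
-/

set_option autoImplicit false

open Metric Set Filter Topology

namespace Pool.GL.Helper92

open MvPolynomial

noncomputable section

/-- dehomogenisation of the first variable -/
abbrev dh : MvPolynomial (Fin 3) ℂ →ₐ[ℂ] MvPolynomial (Fin 2) ℂ :=
  MvPolynomial.aeval ![(1 : MvPolynomial (Fin 2) ℂ), MvPolynomial.X 0, MvPolynomial.X 1]

theorem dh_monomial (n : Fin 3 →₀ ℕ) (c : ℂ) :
    dh (monomial n c) = C c * X 0 ^ n 1 * X 1 ^ n 2 := by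
  rw [aeval_monomial, Finsupp.prod_fintype _ _ (by intro i; simp), Fin.prod_univ_three]
  simp [algebraMap_eq, mul_assoc]

theorem eval_dh (F : MvPolynomial (Fin 3) ℂ) (x y : ℂ) :
    eval ![x, y] (dh F) = eval ![1, x, y] F := by
  induction F using MvPolynomial.induction_on with
  | C a => simp
  | add p q hp hq => simp only [map_add, hp, hq]
  | mul_X p i hp =>
    rw [map_mul, map_mul, hp, map_mul]
    congr 1
    fin_cases i <;> simp

theorem hc_mon (j a b : ℕ) (c : ℂ) :
    homogeneousComponent j (C c * X 0 ^ a * X 1 ^ b : MvPolynomial (Fin 2) ℂ) =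
      if j = a + b then C c * X 0 ^ a * X 1 ^ b else 0 := by
  apply homogeneousComponent_of_mem
  have h1 : (C c * X 0 ^ a : MvPolynomial (Fin 2) ℂ).IsHomogeneous a :=
    isHomogeneous_C_mul_X_pow c 0 a
  exact h1.mul (isHomogeneous_X_pow 1 b)

theorem deg3 {F : MvPolynomial (Fin 3) ℂ} {d : ℕ} (hF : F.IsHomogeneous d) {n : Fin 3 →₀ ℕ}
    (hn : n ∈ F.support) : n 0 + n 1 + n 2 = d := by
  have h := hF.degree_eq_sum_deg_support hn
  rw [h]
  rw [Finset.sum_subset (Finset.subset_univ n.support) (by intro i _ hi; simpa using hi),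
    Fin.sum_univ_three]

theorem topA {F : MvPolynomial (Fin 3) ℂ} {d : ℕ} (hF : F.IsHomogeneous d) (x y : ℂ) :
    eval ![x, y] (homogeneousComponent d (dh F)) = eval ![0, x, y] F := by
  have e : F = ∑ n ∈ F.support, monomial n (coeff n F) := F.as_sum
  conv_lhs => rw [e]
  conv_rhs => rw [e]
  simp only [map_sum]
  apply Finset.sum_congr rfl
  intro n hn
  have hd := deg3 hF hn
  rw [dh_monomial, hc_mon, eval_monomial, Finsupp.prod_fintype _ _ (by intro i; simp),
    Fin.prod_univ_three]
  by_cases h0 : n 0 = 0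
  · rw [if_pos (by omega)]
    simp [h0, mul_assoc]
  · rw [if_neg (by omega)]
    simp [h0]

theorem topB {F : MvPolynomial (Fin 3) ℂ} {e : ℕ} (hF : F.IsHomogeneous (e + 1)) (x y : ℂ) :
    eval ![x, y] (homogeneousComponent e (dh F)) = eval ![0, x, y] (pderiv 0 F) := by
  have e : F = ∑ n ∈ F.support, monomial n (coeff n F) := F.as_sum
  conv_lhs => rw [e]
  conv_rhs => rw [e]
  simp only [map_sum]
  apply Finset.sum_congr rfl
  intro n hn
  have hd := deg3 hF hn
  rw [dh_monomial, hc_mon, pderiv_monomial, eval_monomial,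
    Finsupp.prod_fintype _ _ (by intro i; simp), Fin.prod_univ_three]
  have e1 : (n - Finsupp.single 0 1 : Fin 3 →₀ ℕ) 0 = n 0 - 1 := by simp
  have e2 : (n - Finsupp.single 0 1 : Fin 3 →₀ ℕ) 1 = n 1 := by simp
  have e3 : (n - Finsupp.single 0 1 : Fin 3 →₀ ℕ) 2 = n 2 := by simp
  rw [e1, e2, e3]
  by_cases h0 : n 0 = 0
  · rw [if_neg (by omega)]
    simp [h0]
  · by_cases h1 : n 0 = 1
    · rw [if_pos (by omega)]
      simp [h1, mul_assoc]
    · rw [if_neg (by omega)]
      have : n 0 - 1 ≠ 0 := by omega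
      simp [this]

theorem dh_deg {F : MvPolynomial (Fin 3) ℂ} {d : ℕ} (hF : F.IsHomogeneous d) :
    (dh F).totalDegree ≤ d := by
  have e : F = ∑ n ∈ F.support, monomial n (coeff n F) := F.as_sum
  rw [e]
  simp only [map_sum]
  apply totalDegree_finsetSum_le
  intro n hn
  have hd := deg3 hF hn
  rw [dh_monomial]
  have h1 : (C (coeff n F) * X 0 ^ n 1 * X 1 ^ n 2 : MvPolynomial (Fin 2) ℂ).IsHomogeneous
      (n 1 + n 2) := (isHomogeneous_C_mul_X_pow _ 0 _).mul (isHomogeneous_X_pow 1 _)
  exact h1.totalDegree_le.trans (by omega)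

theorem dh_deg' {F : MvPolynomial (Fin 3) ℂ} {e : ℕ} (hF : F.IsHomogeneous (e + 1))
    (h0 : ∀ z : Fin 3 → ℂ, z 0 = 0 → eval z F = 0) : (dh F).totalDegree ≤ e := by
  have h1 : homogeneousComponent (e + 1) (dh F) = 0 := by
    apply MvPolynomial.funext
    intro z
    have h2 := topA hF (z 0) (z 1)
    have h3 : (![z 0, z 1] : Fin 2 → ℂ) = z := by
      funext i; fin_cases i <;> rfl
    rw [h3] at h2
    rw [h2, h0 _ (by simp)]
    simp
  rw [totalDegree]
  apply Finset.sup_le
  intro s hs
  have hle : s.degree ≤ e + 1 := by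
    have := dh_deg hF
    exact (le_totalDegree hs).trans this
  have hne : s.degree ≠ e + 1 := by
    intro hh
    have h2 : coeff s (homogeneousComponent (e + 1) (dh F)) = coeff s (dh F) := by
      rw [coeff_homogeneousComponent, if_pos hh]
    rw [h1, coeff_zero] at h2
    exact (mem_support_iff.1 hs) h2.symm
  have h3 : (s.sum fun _ e => e) = s.degree := rfl
  rw [h3]
  omega

theorem hc_X_mul (i : Fin 2) (e : ℕ) (R : MvPolynomial (Fin 2) ℂ) :
    homogeneousComponent (e + 1) (X i * R) = X i * homogeneousComponent e R := by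
  conv_lhs => rw [← sum_homogeneousComponent R]
  rw [Finset.mul_sum, map_sum]
  have h1 : ∀ k ∈ Finset.range (R.totalDegree + 1),
      homogeneousComponent (e + 1) (X i * homogeneousComponent k R) =
        if e = k then X i * homogeneousComponent k R else 0 := by
    intro k _
    have h2 : (X i * homogeneousComponent k R) ∈ homogeneousSubmodule (Fin 2) ℂ (1 + k) :=
      (isHomogeneous_X ℂ i).mul (homogeneousComponent_isHomogeneous k R)
    rw [homogeneousComponent_of_mem h2]
    by_cases h3 : e = k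
    · rw [if_pos h3, if_pos (by omega)]
    · rw [if_neg h3, if_neg (by omega)]
  rw [Finset.sum_congr rfl h1, Finset.sum_ite_eq]
  by_cases h3 : e ∈ Finset.range (R.totalDegree + 1)
  · rw [if_pos h3]
  · rw [if_neg h3]
    rw [homogeneousComponent_eq_zero e R (by simpa using h3), mul_zero]

theorem pd0_dh (F : MvPolynomial (Fin 3) ℂ) : pderiv 0 (dh F) = dh (pderiv 1 F) := by
  induction F using MvPolynomial.induction_on with
  | C a => simp
  | add p q hp hq => simp only [map_add, hp, hq]
  | mul_X p i hp =>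
    rw [map_mul, Derivation.leibniz, Derivation.leibniz, hp, map_add]
    simp only [smul_eq_mul, map_mul]
    congr 1
    fin_cases i <;> simp [pderiv_X]

theorem pd1_dh (F : MvPolynomial (Fin 3) ℂ) : pderiv 1 (dh F) = dh (pderiv 2 F) := by
  induction F using MvPolynomial.induction_on with
  | C a => simp
  | add p q hp hq => simp only [map_add, hp, hq]
  | mul_X p i hp =>
    rw [map_mul, Derivation.leibniz, Derivation.leibniz, hp, map_add]
    simp only [smul_eq_mul, map_mul]
    congr 1
    fin_cases i <;> simp [pderiv_X]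

/-- restriction to the line at infinity -/
abbrev li : MvPolynomial (Fin 3) ℂ →ₐ[ℂ] Polynomial ℂ :=
  MvPolynomial.aeval ![(0 : Polynomial ℂ), 1, Polynomial.X]

theorem eval_li (F : MvPolynomial (Fin 3) ℂ) (s : ℂ) :
    (li F).eval s = eval ![0, 1, s] F := by
  induction F using MvPolynomial.induction_on with
  | C a => simp
  | add p q hp hq => simp only [map_add, Polynomial.eval_add, hp, hq]
  | mul_X p i hp =>
    rw [map_mul, Polynomial.eval_mul, hp, map_mul]
    congr 1
    fin_cases i <;> simp

theorem der_li (F : MvPolynomial (Fin 3) ℂ) :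
    Polynomial.derivative (li F) = li (pderiv 2 F) := by
  induction F using MvPolynomial.induction_on with
  | C a => simp
  | add p q hp hq => simp only [map_add, hp, hq]
  | mul_X p i hp =>
    rw [map_mul, Polynomial.derivative_mul, Derivation.leibniz, hp, map_add]
    simp only [smul_eq_mul, map_mul]
    fin_cases i <;> (simp [pderiv_X]; try ring)

theorem eval_a2 (p : MvPolynomial (Fin 2) ℂ) (s : ℂ) :
    (MvPolynomial.aeval ![(1 : Polynomial ℂ), Polynomial.X] p).eval s = eval ![1, s] p := by
  induction p using MvPolynomial.induction_on with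
  | C a => simp
  | add p q hp hq => simp only [map_add, Polynomial.eval_add, hp, hq]
  | mul_X p i hp =>
    rw [map_mul, Polynomial.eval_mul, hp, map_mul]
    congr 1
    fin_cases i <;> simp

theorem li_monomial (n : Fin 3 →₀ ℕ) (c : ℂ) :
    li (monomial n c) = Polynomial.C (c * 0 ^ n 0) * Polynomial.X ^ n 2 := by
  rw [aeval_monomial, Finsupp.prod_fintype _ _ (by intro i; simp), Fin.prod_univ_three]
  simp [mul_assoc]

theorem li_coeff {F : MvPolynomial (Fin 3) ℂ} {d : ℕ} (hF : F.IsHomogeneous d) :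
    (li F).coeff d = eval ![0, 0, 1] F := by
  have e : F = ∑ n ∈ F.support, monomial n (coeff n F) := F.as_sum
  conv_lhs => rw [e]
  conv_rhs => rw [e]
  simp only [map_sum, Polynomial.finsetSum_coeff]
  apply Finset.sum_congr rfl
  intro n hn
  have hd := deg3 hF hn
  rw [li_monomial, eval_monomial, Finsupp.prod_fintype _ _ (by intro i; simp),
    Fin.prod_univ_three, Polynomial.coeff_C_mul, Polynomial.coeff_X_pow]
  by_cases h0 : n 0 = 0
  · by_cases h1 : n 1 = 0
    · rw [if_pos (by omega)]
      simp [h0, h1]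
    · rw [if_neg (by omega)]
      simp [h1]
  · simp [h0]

theorem li_coeff' {F : MvPolynomial (Fin 3) ℂ} {d : ℕ} (hF : F.IsHomogeneous d) :
    (li F).coeff (d + 1) = 0 := by
  have e : F = ∑ n ∈ F.support, monomial n (coeff n F) := F.as_sum
  rw [e]
  simp only [map_sum, Polynomial.finsetSum_coeff]
  apply Finset.sum_eq_zero
  intro n hn
  have hd := deg3 hF hn
  rw [li_monomial, Polynomial.coeff_C_mul, Polynomial.coeff_X_pow, if_neg (by omega), mul_zero]

/-- Euler's identity, evaluated -/
theorem euler3 {F : MvPolynomial (Fin 3) ℂ} {d : ℕ} (hF : F.IsHomogeneous d) (a : Fin 3 → ℂ) :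
    a 0 * eval a (pderiv 0 F) + a 1 * eval a (pderiv 1 F) + a 2 * eval a (pderiv 2 F) =
      d * eval a F := by
  have h := congrArg (eval a) hF.sum_X_mul_pderiv
  rw [Fin.sum_univ_three] at h
  simpa using h

theorem two_roots (k c A B A' B' : ℂ)
    (h : ∀ t : ℂ, (t - k) * ((t - c) ^ 2 - A * (t - c) + B) =
      (t - k) * ((t - c) ^ 2 - A' * (t - c) + B')) : A = A' ∧ B = B' := by
  have h1 := h (k + 1)
  have h2 := h (k + 2)
  have e1 : (k + 1 - k : ℂ) = 1 := by ring
  have e2 : (k + 2 - k : ℂ) = 2 := by ring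
  rw [e1] at h1
  rw [e2] at h2
  have h3 : A = A' := by linear_combination h1 - h2 / 2
  refine ⟨h3, ?_⟩
  rw [h3] at h1
  linear_combination h1

/-- F31 -/
theorem REDA : S_REDA := by
  intro d F hd hF h0 hsing hns
  obtain ⟨e, rfl⟩ : ∃ e, d = e + 1 := ⟨d - 1, by omega⟩
  have hR0 : (dh (F 0)).totalDegree ≤ e := dh_deg' (hF 0) h0
  -- the top parts
  have hPd : ∀ x y : ℂ, eval ![x, y] (homogeneousComponent (e + 1) (affFld (e + 1) F).P) =
      eval ![0, x, y] (F 1) - x * eval ![0, x, y] (pderiv 0 (F 0)) := by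
    intro x y
    change eval ![x, y] (homogeneousComponent (e + 1) (dh (F 1) - X 0 * dh (F 0))) = _
    rw [map_sub, map_sub, topA (hF 1), hc_X_mul, map_mul, topB (hF 0)]
    simp
  have hQd : ∀ x y : ℂ, eval ![x, y] (homogeneousComponent (e + 1) (affFld (e + 1) F).Q) =
      eval ![0, x, y] (F 2) - y * eval ![0, x, y] (pderiv 0 (F 0)) := by
    intro x y
    change eval ![x, y] (homogeneousComponent (e + 1) (dh (F 2) - X 1 * dh (F 0))) = _
    rw [map_sub, map_sub, topA (hF 2), hc_X_mul, map_mul, topB (hF 0)]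
    simp
  have ha0 : ∀ s : ℂ, ((affFld (e + 1) F).inf.a 0).eval s =
      eval ![0, 1, s] (pderiv 0 (F 0)) - eval ![0, 1, s] (F 1) := by
    intro s
    change (- MvPolynomial.aeval ![(1 : Polynomial ℂ), Polynomial.X]
      (homogeneousComponent (e + 1 - 0) (affFld (e + 1) F).P)).eval s = _
    rw [Nat.sub_zero, Polynomial.eval_neg, eval_a2, hPd]
    ring
  have hb0 : (affFld (e + 1) F).inf.b 0 = li (F 2) - Polynomial.X * li (F 1) := by
    apply Polynomial.funext
    intro s
    change (MvPolynomial.aeval ![(1 : Polynomial ℂ), Polynomial.X]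
      (homogeneousComponent (e + 1 - 0) (affFld (e + 1) F).Q) - Polynomial.X *
      MvPolynomial.aeval ![(1 : Polynomial ℂ), Polynomial.X]
      (homogeneousComponent (e + 1 - 0) (affFld (e + 1) F).P)).eval s = _
    rw [Nat.sub_zero, Polynomial.eval_sub, Polynomial.eval_mul, Polynomial.eval_X, eval_a2,
      eval_a2, hPd, hQd, Polynomial.eval_sub, Polynomial.eval_mul, Polynomial.eval_X, eval_li,
      eval_li]
    ring
  refine ⟨hd, ?_, ?_, ?_, ?_, ?_⟩
  · change (dh (F 1) - X 0 * dh (F 0)).totalDegree ≤ e + 1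
    refine (totalDegree_sub _ _).trans (max_le (dh_deg (hF 1)) ?_)
    refine (totalDegree_mul _ _).trans ?_
    rw [totalDegree_X]
    omega
  · change (dh (F 2) - X 1 * dh (F 0)).totalDegree ≤ e + 1
    refine (totalDegree_sub _ _).trans (max_le (dh_deg (hF 2)) ?_)
    refine (totalDegree_mul _ _).trans ?_
    rw [totalDegree_X]
    omega
  · rw [hb0]
    change (li (F 2) - Polynomial.X * li (F 1)).coeff (e + 1 + 1) ≠ 0
    rw [Polynomial.coeff_sub, li_coeff' (hF 2), Polynomial.coeff_X_mul, li_coeff (hF 1), zero_sub]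
    intro hcon
    have h1 : eval ![0, 0, 1] (F 1) = 0 := neg_eq_zero.1 hcon
    apply hns
    refine ⟨eval ![0, 0, 1] (F 2), ?_⟩
    intro i
    fin_cases i
    · simpa using h0 ![0, 0, 1] (by simp)
    · simpa using h1
    · simp
  · intro s hs
    rw [hb0] at hs ⊢
    rw [Polynomial.eval_sub, Polynomial.eval_mul, Polynomial.eval_X, eval_li, eval_li] at hs
    rw [ha0]
    have hder : (Polynomial.derivative (li (F 2) - Polynomial.X * li (F 1))).eval s =
        eval ![0, 1, s] (pderiv 2 (F 2)) - s * eval ![0, 1, s] (pderiv 2 (F 1)) -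
          eval ![0, 1, s] (F 1) := by
      rw [Polynomial.derivative_sub, Polynomial.derivative_mul, Polynomial.derivative_X, der_li,
        der_li]
      simp only [Polynomial.eval_sub, Polynomial.eval_add, Polynomial.eval_mul,
        Polynomial.eval_one, Polynomial.eval_X, eval_li]
      ring
    rw [hder]
    obtain ⟨c, hc⟩ : ∃ c : ℂ, c = eval ![0, 1, s] (F 1) := ⟨_, rfl⟩
    have hF0 : eval ![0, 1, s] (F 0) = 0 := h0 _ (by simp)
    have hane : (![0, 1, s] : Fin 3 → ℂ) ≠ 0 := by
      intro h
      have := congrFun h 1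
      simp at this
    obtain ⟨ν₁, ν₂, hch, him⟩ := hsing ![0, 1, s] c hane (by
      intro i
      fin_cases i
      · simpa using hF0
      · simp [hc]
      · simp only [Fin.reduceFinMk, Matrix.cons_val]
        rw [hc]
        linear_combination hs)
    -- entries of the Jacobian
    have hJ02 : eval ![0, 1, s] (pderiv 2 (F 0)) = 0 := by
      have h1 : li (F 0) = 0 := by
        apply Polynomial.funext
        intro t
        rw [eval_li, h0 _ (by simp), Polynomial.eval_zero]
      rw [← eval_li, ← der_li, h1, Polynomial.derivative_zero, Polynomial.eval_zero]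
    have hE0 := euler3 (hF 0) ![0, 1, s]
    have hE1 := euler3 (hF 1) ![0, 1, s]
    have hE2 := euler3 (hF 2) ![0, 1, s]
    simp only [Matrix.cons_val_zero, Matrix.cons_val_one, Matrix.cons_val] at hE0 hE1 hE2
    have hJ01 : eval ![0, 1, s] (pderiv 1 (F 0)) = 0 := by
      rw [hJ02, hF0] at hE0
      linear_combination hE0
    rw [← hc] at hE1
    have hF2 : eval ![0, 1, s] (F 2) = s * c := by
      rw [hc]; linear_combination hs
    rw [hF2] at hE2
    have key := two_roots (((e + 1 : ℕ) : ℂ) * c) c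
      ((eval ![0, 1, s] (pderiv 0 (F 0)) - c) +
        (eval ![0, 1, s] (pderiv 2 (F 2)) - s * eval ![0, 1, s] (pderiv 2 (F 1)) - c))
      ((eval ![0, 1, s] (pderiv 0 (F 0)) - c) *
        (eval ![0, 1, s] (pderiv 2 (F 2)) - s * eval ![0, 1, s] (pderiv 2 (F 1)) - c))
      (ν₁ + ν₂) (ν₁ * ν₂) (by
        intro t
        have h1 := congrArg (Polynomial.eval t) hch
        rw [Matrix.eval_charpoly, Matrix.det_fin_three] at h1
        simp only [Matrix.sub_apply, Matrix.scalar_apply, Matrix.diagonal_apply, Matrix.of_apply,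
          Polynomial.eval_mul, Polynomial.eval_sub, Polynomial.eval_X, Polynomial.eval_C] at h1
        simp only [hJ01, hJ02] at h1
        simp at h1
        have hJ11 : eval ![0, 1, s] (pderiv 1 (F 1)) =
            ((e : ℂ) + 1) * c - s * eval ![0, 1, s] (pderiv 2 (F 1)) := by
          push_cast at hE1
          linear_combination hE1
        have hJ21 : eval ![0, 1, s] (pderiv 1 (F 2)) =
            ((e : ℂ) + 1) * (s * c) - s * eval ![0, 1, s] (pderiv 2 (F 2)) := by
          push_cast at hE2
          linear_combination hE2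
        rw [hJ11, hJ21] at h1
        push_cast
        linear_combination h1)
    obtain ⟨ksum, kprod⟩ := key
    rw [← hc]
    generalize eval ![0, 1, s] (pderiv 0 (F 0)) = J00 at ksum kprod ⊢
    generalize eval ![0, 1, s] (pderiv 2 (F 2)) - s * eval ![0, 1, s] (pderiv 2 (F 1)) - c = B0
      at ksum kprod ⊢
    obtain ⟨A0, hA0⟩ : ∃ A0 : ℂ, A0 = J00 - c := ⟨_, rfl⟩
    rw [← hA0] at ksum kprod ⊢
    have hprod : (A0 - ν₁) * (A0 - ν₂) = 0 := by
      linear_combination (-kprod) + A0 * ksum
    have him2 : (ν₂ / ν₁).im ≠ 0 := by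
      intro h
      apply him
      have h1 : ν₁ / ν₂ = (ν₂ / ν₁)⁻¹ := by rw [inv_div]
      rw [h1, Complex.inv_im, h]
      simp
    rcases mul_eq_zero.1 hprod with h1 | h1
    · have hA : A0 = ν₁ := by linear_combination h1
      have hB : B0 = ν₂ := by rw [hA] at ksum; linear_combination ksum
      rw [hA, hB]
      refine ⟨?_, him⟩
      intro h
      apply him
      rw [h]; simp
    · have hA : A0 = ν₂ := by linear_combination h1
      have hB : B0 = ν₁ := by rw [hA] at ksum; linear_combination ksum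
      rw [hA, hB]
      refine ⟨?_, him2⟩
      intro h
      apply him
      rw [h]; simp
  · rintro ⟨x, y⟩ hp
    obtain ⟨c, hc⟩ : ∃ c : ℂ, c = eval ![1, x, y] (F 0) := ⟨_, rfl⟩
    have hP : eval ![1, x, y] (F 1) = x * c := by
      have h1 := congrArg Prod.fst hp
      change eval ![x, y] (dh (F 1) - X 0 * dh (F 0)) = 0 at h1
      rw [map_sub, map_mul, eval_dh, eval_dh, eval_X, ← hc] at h1
      simp only [Matrix.cons_val_zero] at h1
      linear_combination h1
    have hQ : eval ![1, x, y] (F 2) = y * c := by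
      have h1 := congrArg Prod.snd hp
      change eval ![x, y] (dh (F 2) - X 1 * dh (F 0)) = 0 at h1
      rw [map_sub, map_mul, eval_dh, eval_dh, eval_X, ← hc] at h1
      simp only [Matrix.cons_val_one, Matrix.cons_val] at h1
      linear_combination h1
    have hane : (![1, x, y] : Fin 3 → ℂ) ≠ 0 := by
      intro h
      have := congrFun h 0
      simp at this
    obtain ⟨ν₁, ν₂, hch, him⟩ := hsing ![1, x, y] c hane (by
      intro i
      fin_cases i
      · simp [hc]
      · simpa [mul_comm] using hP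
      · simpa [mul_comm] using hQ)
    have hE0 := euler3 (hF 0) ![1, x, y]
    have hE1 := euler3 (hF 1) ![1, x, y]
    have hE2 := euler3 (hF 2) ![1, x, y]
    simp only [Matrix.cons_val_zero, Matrix.cons_val_one, Matrix.cons_val] at hE0 hE1 hE2
    rw [← hc] at hE0
    rw [hP] at hE1
    rw [hQ] at hE2
    refine ⟨ν₁, ν₂, him, ?_⟩
    change eval ![x, y] (pderiv 0 (dh (F 1) - X 0 * dh (F 0))) +
      eval ![x, y] (pderiv 1 (dh (F 2) - X 1 * dh (F 0))) = ν₁ + ν₂ ∧
      eval ![x, y] (pderiv 0 (dh (F 1) - X 0 * dh (F 0))) *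
        eval ![x, y] (pderiv 1 (dh (F 2) - X 1 * dh (F 0))) -
      eval ![x, y] (pderiv 1 (dh (F 1) - X 0 * dh (F 0))) *
        eval ![x, y] (pderiv 0 (dh (F 2) - X 1 * dh (F 0))) = ν₁ * ν₂
    have d00 : eval ![x, y] (pderiv 0 (dh (F 1) - X 0 * dh (F 0))) =
        eval ![1, x, y] (pderiv 1 (F 1)) - c - x * eval ![1, x, y] (pderiv 1 (F 0)) := by
      rw [map_sub, Derivation.leibniz, pd0_dh, pd0_dh, pderiv_X_self]
      simp only [smul_eq_mul, map_sub, map_add, map_mul, eval_dh, eval_X, mul_one, ← hc,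
        Matrix.cons_val_zero]
      ring
    have d10 : eval ![x, y] (pderiv 1 (dh (F 1) - X 0 * dh (F 0))) =
        eval ![1, x, y] (pderiv 2 (F 1)) - x * eval ![1, x, y] (pderiv 2 (F 0)) := by
      rw [map_sub, Derivation.leibniz, pd1_dh, pd1_dh, pderiv_X_of_ne (by decide)]
      simp only [smul_eq_mul, map_sub, map_add, map_mul, eval_dh, eval_X, map_zero, mul_zero,
        Matrix.cons_val_zero]
      ring
    have d01 : eval ![x, y] (pderiv 0 (dh (F 2) - X 1 * dh (F 0))) =
        eval ![1, x, y] (pderiv 1 (F 2)) - y * eval ![1, x, y] (pderiv 1 (F 0)) := by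
      rw [map_sub, Derivation.leibniz, pd0_dh, pd0_dh, pderiv_X_of_ne (by decide)]
      simp only [smul_eq_mul, map_sub, map_add, map_mul, eval_dh, eval_X, map_zero, mul_zero,
        Matrix.cons_val_one, Matrix.cons_val]
      ring
    have d11 : eval ![x, y] (pderiv 1 (dh (F 2) - X 1 * dh (F 0))) =
        eval ![1, x, y] (pderiv 2 (F 2)) - c - y * eval ![1, x, y] (pderiv 2 (F 0)) := by
      rw [map_sub, Derivation.leibniz, pd1_dh, pd1_dh, pderiv_X_self]
      simp only [smul_eq_mul, map_sub, map_add, map_mul, eval_dh, eval_X, mul_one, ← hc,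
        Matrix.cons_val_one, Matrix.cons_val]
      ring
    rw [d00, d10, d01, d11]
    apply two_roots (((e + 1 : ℕ) : ℂ) * c) c
    intro t
    have h1 := congrArg (Polynomial.eval t) hch
    rw [Matrix.eval_charpoly, Matrix.det_fin_three] at h1
    simp only [Matrix.sub_apply, Matrix.scalar_apply, Matrix.diagonal_apply, Matrix.of_apply,
      Polynomial.eval_mul, Polynomial.eval_sub, Polynomial.eval_X, Polynomial.eval_C] at h1
    simp at h1
    have hJ00 : eval ![1, x, y] (pderiv 0 (F 0)) = ((e : ℂ) + 1) * c -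
        x * eval ![1, x, y] (pderiv 1 (F 0)) - y * eval ![1, x, y] (pderiv 2 (F 0)) := by
      push_cast at hE0
      linear_combination hE0
    have hJ10 : eval ![1, x, y] (pderiv 0 (F 1)) = ((e : ℂ) + 1) * (x * c) -
        x * eval ![1, x, y] (pderiv 1 (F 1)) - y * eval ![1, x, y] (pderiv 2 (F 1)) := by
      push_cast at hE1
      linear_combination hE1
    have hJ20 : eval ![1, x, y] (pderiv 0 (F 2)) = ((e : ℂ) + 1) * (y * c) -
        x * eval ![1, x, y] (pderiv 1 (F 2)) - y * eval ![1, x, y] (pderiv 2 (F 2)) := by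
      push_cast at hE2
      linear_combination hE2
    rw [hJ00, hJ10, hJ20] at h1
    push_cast
    linear_combination h1

end

end Pool.GL.Helper92
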